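import Pool.Agent.H87.LD.Def

/-!
# Comparison of resolutions, homotopies, retracts
-/

set_option autoImplicit false

namespace Pool.Agent.H87.LD

open IsLocalRing

universe u v w

variable {R : Type u} [CommRing R] [IsLocalRing R]

theorem fil_map {a b j : ℕ} (f : (Fin a → R) →ₗ[R] (Fin b → R)) {x : Fin a → R} (hx : x ∈ fil (R := R) a j) :
    f x ∈ fil (R := R) b j :=
  Submodule.smul_top_le_comap_smul_top (maximalIdeal R ^ j) f hx

theorem fil_anti {a j k : ℕ} (h : j ≤ k) : fil (R := R) a k ≤ fil (R := R) a j :=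
  Submodule.smul_mono_left (Ideal.pow_le_pow_right h)

theorem lift_free {n : ℕ} {A B : Type*} [AddCommGroup A] [Module R A] [AddCommGroup B] [Module R B]
    (p : A →ₗ[R] B) (g : (Fin n → R) →ₗ[R] B) (h : ∀ x, g x ∈ LinearMap.range p) :
    ∃ f : (Fin n → R) →ₗ[R] A, ∀ x, p (f x) = g x := by
  classical
  choose c hc using fun i : Fin n => h (Pi.single i 1)
  refine ⟨(Pi.basisFun R (Fin n)).constr R c, fun x => ?_⟩
  have h1 : p ∘ₗ ((Pi.basisFun R (Fin n)).constr R c) = g := by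
    refine (Pi.basisFun R (Fin n)).ext fun i => ?_
    rw [LinearMap.comp_apply, Module.Basis.constr_basis, hc, Pi.basisFun_apply]
  exact LinearMap.congr_fun h1 x

section

variable {M : Type v} [AddCommGroup M] [Module R M] {K : Type w} [AddCommGroup K] [Module R K]

theorem d_d (F : MinRes R M) (i : ℕ) (x : Fin (F.rk (i + 2)) → R) : F.d i (F.d (i + 1) x) = 0 := by
  have h : F.d (i + 1) x ∈ LinearMap.ker (F.d i) := by
    rw [← F.exact_succ i]
    exact LinearMap.mem_range_self _ x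
  exact h

theorem aug_d (F : MinRes R M) (x : Fin (F.rk 1) → R) : F.aug (F.d 0 x) = 0 := by
  have h : F.d 0 x ∈ LinearMap.ker F.aug := by
    rw [← F.exact_zero]
    exact LinearMap.mem_range_self _ x
  exact h

/-- a lift of `u : K → M` to a map of resolutions -/
theorem exists_lift (G : MinRes R K) (F : MinRes R M) (u : K →ₗ[R] M) :
    ∃ f : ∀ i, (Fin (G.rk i) → R) →ₗ[R] (Fin (F.rk i) → R),
      (∀ x, F.aug (f 0 x) = u (G.aug x)) ∧ ∀ i x, F.d i (f (i + 1) x) = f i (G.d i x) := by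
  classical
  let S : ℕ → Type _ := fun i => {f : ((Fin (G.rk i) → R) →ₗ[R] (Fin (F.rk i) → R)) ×
    ((Fin (G.rk (i + 1)) → R) →ₗ[R] (Fin (F.rk (i + 1)) → R)) // ∀ x, F.d i (f.2 x) = f.1 (G.d i x)}
  obtain ⟨f0, hf0⟩ := lift_free F.aug (u ∘ₗ G.aug) (fun x => F.surj _)
  obtain ⟨f1, hf1⟩ := lift_free (F.d 0) (f0 ∘ₗ G.d 0) (fun x => by
    rw [F.exact_zero, LinearMap.mem_ker, LinearMap.comp_apply, hf0, LinearMap.comp_apply, aug_d, map_zero])
  have next : ∀ i (s : S i), ∃ g : (Fin (G.rk (i + 2)) → R) →ₗ[R] (Fin (F.rk (i + 2)) → R),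
      ∀ x, F.d (i + 1) (g x) = s.1.2 (G.d (i + 1) x) := by
    intro i s
    obtain ⟨g, hg⟩ := lift_free (F.d (i + 1)) (s.1.2 ∘ₗ G.d (i + 1)) (fun x => by
      rw [F.exact_succ, LinearMap.mem_ker, LinearMap.comp_apply, s.2, d_d, map_zero])
    exact ⟨g, hg⟩
  let s : ∀ i, S i := fun i => Nat.rec ⟨(f0, f1), hf1⟩
    (fun i t => ⟨(t.1.2, (next i t).choose), (next i t).choose_spec⟩) i
  refine ⟨fun i => (s i).1.1, hf0, fun i x => ?_⟩
  exact (s i).2 x

/-- a map of resolutions which lifts zero is homotopic to zero -/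
theorem exists_homotopy (G : MinRes R K) (t : ∀ i, (Fin (G.rk i) → R) →ₗ[R] (Fin (G.rk i) → R))
    (h0 : ∀ x, G.aug (t 0 x) = 0) (ht : ∀ i x, G.d i (t (i + 1) x) = t i (G.d i x)) :
    ∃ h : ∀ i, (Fin (G.rk i) → R) →ₗ[R] (Fin (G.rk (i + 1)) → R),
      (∀ x, t 0 x = G.d 0 (h 0 x)) ∧ ∀ i x, t (i + 1) x = G.d (i + 1) (h (i + 1) x) + h i (G.d i x) := by
  classical
  let S : ℕ → Type _ := fun i => {h : (Fin (G.rk i) → R) →ₗ[R] (Fin (G.rk (i + 1)) → R) //
    ∀ x, G.d i (t (i + 1) x - h (G.d i x)) = 0}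
  obtain ⟨g0, hg0⟩ := lift_free (G.d 0) (t 0) (fun x => by
    rw [G.exact_zero, LinearMap.mem_ker, h0])
  have hS0 : ∀ x, G.d 0 (t (0 + 1) x - g0 (G.d 0 x)) = 0 := by
    intro x
    rw [map_sub, hg0, ht, sub_self]
  have next : ∀ i (s : S i), ∃ g : (Fin (G.rk (i + 1)) → R) →ₗ[R] (Fin (G.rk (i + 2)) → R),
      ∀ x, G.d (i + 1) (g x) = t (i + 1) x - s.1 (G.d i x) := by
    intro i s
    obtain ⟨g, hg⟩ := lift_free (G.d (i + 1)) (t (i + 1) - s.1 ∘ₗ G.d i) (fun x => by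
      rw [G.exact_succ, LinearMap.mem_ker]
      exact s.2 x)
    exact ⟨g, hg⟩
  have nextS : ∀ i (s : S i), ∀ x, G.d (i + 1) (t (i + 2) x - (next i s).choose (G.d (i + 1) x)) = 0 := by
    intro i s x
    rw [map_sub, (next i s).choose_spec, ht, d_d, map_zero, sub_zero, sub_self]
  let s : ∀ i, S i := fun i => Nat.rec ⟨g0, hS0⟩ (fun i t => ⟨(next i t).choose, nextS i t⟩) i
  refine ⟨fun i => (s i).1, fun x => (hg0 x).symm, fun i x => ?_⟩
  have h1 : G.d (i + 1) ((s (i + 1)).1 x) = t (i + 1) x - (s i).1 (G.d i x) := (next i (s i)).choose_spec x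
  rw [h1, sub_add_cancel]

/-- if `K` is a direct summand of `M` then `ld K ≤ ld M` -/
theorem retract (G : MinRes R K) (F : MinRes R M) (u : K →ₗ[R] M) (v : M →ₗ[R] K) (huv : ∀ x, v (u x) = x)
    (i : ℕ) (hF : F.LinExact i) : G.LinExact i := by
  obtain ⟨f, hf0, hf⟩ := exists_lift G F u
  obtain ⟨g, hg0, hg⟩ := exists_lift F G v
  obtain ⟨h, -, hh⟩ := exists_homotopy G (fun i => g i ∘ₗ f i - LinearMap.id)
    (fun x => by
      rw [LinearMap.sub_apply, LinearMap.comp_apply, LinearMap.id_apply, map_sub, hg0, hf0, huv, sub_self])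
    (fun i x => by
      rw [LinearMap.sub_apply, LinearMap.comp_apply, LinearMap.id_apply, map_sub, hg, hf, LinearMap.sub_apply,
        LinearMap.comp_apply, LinearMap.id_apply])
  have hid : ∀ x, g (i + 1) (f (i + 1) x) - x = G.d (i + 1) (h (i + 1) x) + h i (G.d i x) := fun x => hh i x
  refine ⟨fun x hx => ?_, fun j x hx hdx => ?_⟩
  · have h1 : f (i + 1) x ∈ fil (R := R) (F.rk (i + 1)) 1 := by
      apply hF.1
      rw [hf]
      exact fil_map _ hx
    have h2 : x = g (i + 1) (f (i + 1) x) - G.d (i + 1) (h (i + 1) x) - h i (G.d i x) := by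
      have := hid x
      rw [sub_sub, ← this]
      abel
    rw [h2]
    refine Submodule.sub_mem _ (Submodule.sub_mem _ (fil_map _ h1) ?_) (fil_anti (by norm_num) (fil_map _ hx))
    have h3 := G.minimal (i + 1) (LinearMap.mem_range_self (G.d (i + 1)) (h (i + 1) x))
    unfold fil
    rw [pow_one]
    exact h3
  · obtain ⟨y, hy, hxy⟩ := hF.2 j (f (i + 1) x) (fil_map _ hx) (by rw [hf]; exact fil_map _ hdx)
    refine ⟨g (i + 2) y - h (i + 1) x, Submodule.sub_mem _ (fil_map _ hy)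
      (fil_anti (Nat.le_succ j) (fil_map _ hx)), ?_⟩
    have h2 : x - G.d (i + 1) (g (i + 2) y - h (i + 1) x) =
        g (i + 1) (f (i + 1) x - F.d (i + 1) y) - h i (G.d i x) := by
      have h3 := hid x
      rw [map_sub, map_sub, hg (i + 1) y]
      have h4 : g (i + 1) (f (i + 1) x) = x + (G.d (i + 1) (h (i + 1) x) + h i (G.d i x)) := by
        rw [← h3]
        abel
      rw [h4]
      abel
    rw [h2]
    exact Submodule.sub_mem _ (fil_map _ hxy) (fil_anti (Nat.le_succ _) (fil_map _ hdx))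

end

end Pool.Agent.H87.LD
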