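import Mathlib

/-!
# Minimal free resolutions, their linear parts and the linearity defect (MP_2ee108_al)
-/

set_option autoImplicit false

namespace Pool.Agent.H87.LD

open IsLocalRing

universe u v

/-- A minimal free resolution `⋯ → F 1 → F 0 → M → 0` of the module `M` over the local ring `R` by the finitely generated free
modules `F i = R ^ (rk i)`. -/
structure MinRes (R : Type u) [CommRing R] [IsLocalRing R] (M : Type v) [AddCommGroup M] [Module R M] where
  /-- the ranks -/
  rk : ℕ → ℕ
  /-- the augmentation -/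
  aug : (Fin (rk 0) → R) →ₗ[R] M
  /-- the differentials -/
  d : ∀ i : ℕ, (Fin (rk (i + 1)) → R) →ₗ[R] (Fin (rk i) → R)
  surj : Function.Surjective aug
  exact_zero : LinearMap.range (d 0) = LinearMap.ker aug
  exact_succ : ∀ i, LinearMap.range (d (i + 1)) = LinearMap.ker (d i)
  minimal : ∀ i, LinearMap.range (d i) ≤ maximalIdeal R • (⊤ : Submodule R (Fin (rk i) → R))

variable {R : Type u} [CommRing R] [IsLocalRing R]

/-- `𝔪 ^ j F`, `F = R ^ n` -/
def fil (n j : ℕ) : Submodule R (Fin n → R) := maximalIdeal R ^ j • ⊤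

/-- `H_(i+1) (lin F) = 0`: the complex `lin F` has the degree `q` part `𝔪 ^ (q - i) F i / 𝔪 ^ (q - i + 1) F i` in homological degree
`i` (`𝔪 ^ j = R` for `j ≤ 0`); the two conditions are exactness at `F (i + 1)` in the internal degree `q = i + 1` and in the
internal degrees `q = i + 1 + (j + 1)`. -/
def MinRes.LinExact {M : Type v} [AddCommGroup M] [Module R M] (F : MinRes R M) (i : ℕ) : Prop :=
  (∀ x, F.d i x ∈ fil (F.rk i) 2 → x ∈ fil (F.rk (i + 1)) 1) ∧
  ∀ j, ∀ x ∈ fil (F.rk (i + 1)) (j + 1), F.d i x ∈ fil (F.rk i) (j + 3) →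
    ∃ y ∈ fil (F.rk (i + 2)) j, x - F.d (i + 1) y ∈ fil (F.rk (i + 1)) (j + 2)

/-- `ld_R M ≤ n`: `M` has a minimal free resolution `F` with `H_i (lin F) = 0` for all `i > n` -/
def LdLE (R : Type u) [CommRing R] [IsLocalRing R] (M : Type v) [AddCommGroup M] [Module R M] (n : ℕ) : Prop :=
  ∃ F : MinRes R M, ∀ i, n ≤ i → F.LinExact i

/-- `R` as a module over itself through the `e`-th iterate of the Frobenius endomorphism -/
def FrobMod (R : Type u) (_p _e : ℕ) : Type u := R

instance (p e : ℕ) : AddCommGroup (FrobMod R p e) := inferInstanceAs (AddCommGroup R)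

noncomputable instance (p e : ℕ) [ExpChar R p] : Module R (FrobMod R p e) :=
  Module.compHom R (iterateFrobenius R p e)

end Pool.Agent.H87.LD
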