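import Pool.Agent.H87.LD.Cmp

/-!
# Existence of minimal free resolutions
-/

set_option autoImplicit false

namespace Pool.Agent.H87.LD

open IsLocalRing TensorProduct

universe u v

variable {R : Type u} [CommRing R] [IsLocalRing R]

theorem mem_smul_top {n : ℕ} (I : Ideal R) (x : Fin n → R) (h : ∀ i, x i ∈ I) :
    x ∈ I • (⊤ : Submodule R (Fin n → R)) := by
  classical
  have h1 : x = ∑ i, x i • (Pi.single i (1 : R) : Fin n → R) := by
    funext j
    rw [Finset.sum_apply]
    simp [Pi.single_apply]
  rw [h1]
  exact Submodule.sum_mem _ fun i _ => Submodule.smul_mem_smul (h i) Submodule.mem_top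

theorem exists_cover (M : Type v) [AddCommGroup M] [Module R M] [Module.Finite R M] :
    ∃ (n : ℕ) (f : (Fin n → R) →ₗ[R] M), Function.Surjective f ∧
      LinearMap.ker f ≤ maximalIdeal R • (⊤ : Submodule R (Fin n → R)) := by
  classical
  let k := ResidueField R
  let b := Module.finBasis k (k ⊗[R] M)
  have hs : Function.Surjective (TensorProduct.mk R k M 1) :=
    TensorProduct.mk_surjective _ _ _ IsLocalRing.residue_surjective
  choose m hm using fun i => hs (b i)
  let f := (Pi.basisFun R (Fin (Module.finrank k (k ⊗[R] M)))).constr R m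
  have hf : ∀ x, f x = ∑ i, x i • m i := by
    intro x
    rw [Module.Basis.constr_apply_fintype]
    simp
  refine ⟨_, f, ?_, ?_⟩
  · have h1 : Submodule.span R (Set.range m) = ⊤ := IsLocalRing.span_eq_top_of_tmul_eq_basis m b hm
    rw [← LinearMap.range_eq_top, ← h1]
    exact Module.Basis.constr_range _ _
  · intro x hx
    rw [LinearMap.mem_ker, hf] at hx
    apply mem_smul_top
    have h2 : ∑ i, (residue R (x i)) • b i = 0 := by
      have h3 := congrArg (TensorProduct.mk R k M 1) hx
      rw [map_sum, map_zero] at h3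
      rw [← h3]
      refine Finset.sum_congr rfl fun i _ => ?_
      rw [map_smul, hm]
      exact (algebraMap_smul k (x i) (b i))
    intro i
    have h4 := Fintype.linearIndependent_iff.1 b.linearIndependent _ h2 i
    exact (residue_eq_zero_iff _).1 h4

/-- a step of a minimal resolution -/
structure St (R : Type u) [CommRing R] [IsLocalRing R] where
  a : ℕ
  b : ℕ
  d : (Fin b → R) →ₗ[R] (Fin a → R)
  hker : LinearMap.ker d ≤ maximalIdeal R • (⊤ : Submodule R (Fin b → R))

theorem exists_next [IsNoetherianRing R] {M : Type v} [AddCommGroup M] [Module R M] {b : ℕ}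
    (f : (Fin b → R) →ₗ[R] M) :
    ∃ (c : ℕ) (g : (Fin c → R) →ₗ[R] (Fin b → R)), LinearMap.range g = LinearMap.ker f ∧
      LinearMap.ker g ≤ maximalIdeal R • (⊤ : Submodule R (Fin c → R)) := by
  obtain ⟨c, g, hg, hk⟩ := exists_cover (R := R) (LinearMap.ker f)
  refine ⟨c, (LinearMap.ker f).subtype ∘ₗ g, ?_, ?_⟩
  · rw [LinearMap.range_comp, LinearMap.range_eq_top.2 hg, Submodule.map_top, Submodule.range_subtype]
  · intro x hx
    apply hk
    rw [LinearMap.mem_ker] at hx ⊢
    exact Subtype.ext hx

/-- the next step -/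
noncomputable def St.next [IsNoetherianRing R] (s : St R) : St R where
  a := s.b
  b := (exists_next s.d).choose
  d := (exists_next s.d).choose_spec.choose
  hker := (exists_next s.d).choose_spec.choose_spec.2

theorem St.next_range [IsNoetherianRing R] (s : St R) :
    LinearMap.range (s.next.d : (Fin s.next.b → R) →ₗ[R] (Fin s.b → R)) = LinearMap.ker s.d :=
  (exists_next s.d).choose_spec.choose_spec.1

/-- a finitely generated module over a Noetherian local ring has a minimal free resolution -/
theorem exists_minRes [IsNoetherianRing R] (M : Type v) [AddCommGroup M] [Module R M] [Module.Finite R M] :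
    Nonempty (MinRes R M) := by
  classical
  obtain ⟨n, f, hf, hk⟩ := exists_cover (R := R) M
  obtain ⟨c, g, hg, hgk⟩ := exists_next (R := R) f
  let s : ℕ → St R := fun i => Nat.rec ⟨n, c, g, hgk⟩ (fun _ t => t.next) i
  have hs : ∀ i, LinearMap.range ((s (i + 1)).d : (Fin (s (i + 1)).b → R) →ₗ[R] (Fin (s i).b → R)) =
      LinearMap.ker (s i).d := fun i => (s i).next_range
  refine ⟨⟨fun i => (s i).a, f, fun i => (s i).d, hf, hg, hs, ?_⟩⟩
  intro i
  cases i with
  | zero =>
    show LinearMap.range g ≤ _
    rw [hg]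
    exact hk
  | succ i =>
    show LinearMap.range ((s (i + 1)).d : (Fin (s (i + 1)).b → R) →ₗ[R] (Fin (s i).b → R)) ≤ _
    rw [hs i]
    exact (s i).hker

end Pool.Agent.H87.LD
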