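import Pool.Agent.H72.LD.Cone4

set_option autoImplicit false

/-!
# [H87 LD Hil] a criterion by the Hilbert function (MP_2ee108_al)
-/

namespace Pool.Agent.H87.LD.Hil

open IsLocalRing

variable {R : Type} [CommRing R]

/-- adding one element `y` with `J y ⊆ I` -/
theorem one (I J : Ideal R) (y : R) (h : ∀ c ∈ J, c * y ∈ I) :
    Module.length R (R ⧸ I) ≤ Module.length R (R ⧸ (I ⊔ Ideal.span {y})) + Module.length R (R ⧸ J) := by
  obtain ⟨g, hg⟩ : ∃ g : (R ⧸ I) →ₗ[R] (R ⧸ (I ⊔ Ideal.span {y})),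
      ∀ x, g (Ideal.Quotient.mk I x) = Ideal.Quotient.mk (I ⊔ Ideal.span {y}) x :=
    ⟨(Ideal.Quotient.factorₐ R (le_sup_left : I ≤ I ⊔ Ideal.span {y})).toLinearMap, fun x => rfl⟩
  have hgs : Function.Surjective g := by
    intro z
    obtain ⟨x, rfl⟩ := Ideal.Quotient.mk_surjective z
    exact ⟨Ideal.Quotient.mk I x, hg x⟩
  obtain ⟨f, hf⟩ : ∃ f : R →ₗ[R] (R ⧸ I), ∀ c, f c = Ideal.Quotient.mk I (c * y) :=
    ⟨(Ideal.Quotient.mkₐ R I).toLinearMap.comp (LinearMap.mulRight R y), fun x => rfl⟩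
  have hfJ : J ≤ LinearMap.ker f := by
    intro c hc
    rw [LinearMap.mem_ker, hf, Ideal.Quotient.eq_zero_iff_mem]
    exact h c hc
  obtain ⟨f', hf'⟩ : ∃ f' : (R ⧸ J) →ₗ[R] (R ⧸ I), ∀ c, f' (Ideal.Quotient.mk J c) = Ideal.Quotient.mk I (c * y) :=
    ⟨Submodule.liftQ J f hfJ, fun c => hf c⟩
  have h1 : Module.length R (R ⧸ I) = Module.length R (LinearMap.ker g) + Module.length R (R ⧸ (I ⊔ Ideal.span {y})) :=
    Module.length_eq_add_of_exact (LinearMap.ker g).subtype g (Submodule.subtype_injective _) hgs (by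
      intro a
      rw [← LinearMap.mem_ker]
      simp)
  have h2 : LinearMap.ker g ≤ LinearMap.range f' := by
    intro z hz
    obtain ⟨x, rfl⟩ := Ideal.Quotient.mk_surjective z
    rw [LinearMap.mem_ker, hg, Ideal.Quotient.eq_zero_iff_mem] at hz
    obtain ⟨a, ha, b, hb, rfl⟩ := Submodule.mem_sup.1 hz
    obtain ⟨c, rfl⟩ := Ideal.mem_span_singleton'.1 hb
    refine ⟨Ideal.Quotient.mk J c, ?_⟩
    rw [hf', map_add, Ideal.Quotient.eq_zero_iff_mem.2 ha, zero_add]
  have h3 : Module.length R (LinearMap.ker g) ≤ Module.length R (LinearMap.range f') :=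
    Module.length_le_of_injective (Submodule.inclusion h2) (Submodule.inclusion_injective h2)
  have h4 : Module.length R (LinearMap.range f') ≤ Module.length R (R ⧸ J) :=
    Module.length_le_of_surjective f'.rangeRestrict f'.surjective_rangeRestrict
  rw [h1, add_comm]
  exact add_le_add le_rfl (h3.trans h4)

/-- adding finitely many elements -/
theorem many (J : Ideal R) (Y : List R) : ∀ I : Ideal R, (∀ y ∈ Y, ∀ c ∈ J, c * y ∈ I) →
    Module.length R (R ⧸ I) ≤ Module.length R (R ⧸ (I ⊔ Ideal.ofList Y)) + Y.length * Module.length R (R ⧸ J) := by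
  induction Y with
  | nil =>
    intro I _
    have e : I ⊔ Ideal.ofList [] = I := by rw [Ideal.ofList_nil, sup_bot_eq]
    rw [e]
    exact le_self_add
  | cons y Y ih =>
    intro I h
    have h1 := one I J y (h y (by simp))
    have h2 := ih (I ⊔ Ideal.span {y}) (fun y' hy' c hc => Ideal.mem_sup_left (h y' (by simp [hy']) c hc))
    have e : I ⊔ Ideal.span {y} ⊔ Ideal.ofList Y = I ⊔ Ideal.ofList (y :: Y) := by
      rw [Ideal.ofList_cons, sup_assoc]
    rw [e] at h2
    refine h1.trans ((add_le_add h2 le_rfl).trans (le_of_eq ?_))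
    rw [List.length_cons]
    push_cast
    rw [add_mul, one_mul, add_assoc]

/-- `m ^ (s + k) ⊆ (z) ^ k m ^ s` -/
theorem red [IsLocalRing R] (Z : Ideal R) (s : ℕ) (h : maximalIdeal R ^ (s + 1) ≤ Z * maximalIdeal R ^ s) (k : ℕ) :
    maximalIdeal R ^ (s + k) ≤ Z ^ k * maximalIdeal R ^ s := by
  induction k with
  | zero => simp
  | succ k ih =>
    calc maximalIdeal R ^ (s + (k + 1)) = maximalIdeal R ^ (s + k) * maximalIdeal R := by
          rw [← add_assoc, pow_succ]
      _ ≤ (Z ^ k * maximalIdeal R ^ s) * maximalIdeal R := Ideal.mul_mono ih le_rfl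
      _ = Z ^ k * maximalIdeal R ^ (s + 1) := by rw [mul_assoc, ← pow_succ]
      _ ≤ Z ^ k * (Z * maximalIdeal R ^ s) := Ideal.mul_mono le_rfl h
      _ = Z ^ (k + 1) * maximalIdeal R ^ s := by rw [pow_succ, mul_assoc]

/-- `(z) ^ (t q) ⊆ (z_1 ^ q, ..., z_t ^ q)` -/
theorem pig (q : ℕ) (L : List R) (hL : L ≠ []) : Ideal.ofList L ^ (L.length * q) ≤ Ideal.ofList (L.map (· ^ q)) := by
  induction L with
  | nil => exact absurd rfl hL
  | cons z L ih =>
    by_cases h0 : L = []
    · subst h0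
      simp [Ideal.ofList_cons, Ideal.ofList_nil, Ideal.span_singleton_pow]
    · rw [Ideal.ofList_cons, List.map_cons, Ideal.ofList_cons, List.length_cons]
      have e : (L.length + 1) * q = q + L.length * q := by ring
      rw [e]
      refine (Ideal.sup_pow_add_le_pow_sup_pow).trans ?_
      refine sup_le_sup ?_ (ih h0)
      rw [Ideal.span_singleton_pow]

/-- the Frobenius power of `m` is generated by the powers of generators of `m` -/
theorem frob (p e : ℕ) (hp : p.Prime) (hc : CharP R p) (X : List R) {r : R} (hr : r ∈ Ideal.ofList X) :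
    r ^ p ^ e ∈ Ideal.ofList (X.map (· ^ p ^ e)) := by
  have : Fact p.Prime := ⟨hp⟩
  have hr' : r ∈ Submodule.span R {x : R | x ∈ X} := hr
  induction hr' using Submodule.span_induction with
  | mem x hx => exact Ideal.subset_span (List.mem_map.2 ⟨x, hx, rfl⟩)
  | zero =>
    have hq : p ^ e ≠ 0 := pow_ne_zero _ hp.ne_zero
    rw [zero_pow hq]
    exact Ideal.zero_mem _
  | add a b ha hb iha ihb =>
    rw [add_pow_char_pow]
    exact Ideal.add_mem _ (iha ha) (ihb hb)
  | smul c a ha iha =>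
    rw [smul_eq_mul, mul_pow]
    exact Ideal.mul_mem_left _ _ (iha ha)

theorem eltq [IsLocalRing R] (q : ℕ) (L X : List R) (hX : Ideal.ofList X = maximalIdeal R)
    (hfrob : ∀ r ∈ maximalIdeal R, r ^ q ∈ Ideal.ofList (X.map (· ^ q)))
    (hL0 : L ≠ []) (s j : ℕ) (hs : maximalIdeal R ^ (s + 1) ≤ Ideal.ofList L * maximalIdeal R ^ s)
    (hlen : X.length * Module.length R (R ⧸ maximalIdeal R ^ (s + (L.length - 1) * q + j - q)) +
        Module.length R (R ⧸ maximalIdeal R ^ (s + (L.length - 1) * q)) <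
      Module.length R (R ⧸ maximalIdeal R ^ (s + (L.length - 1) * q + j))) :
    ∃ a : R, (∀ r ∈ maximalIdeal R, r ^ q * a ∈ Ideal.ofList (L.map (· ^ q))) ∧
        a ∉ Ideal.span ((fun r : R => r ^ q) '' (maximalIdeal R : Set R)) := by
  by_contra hcon
  push Not at hcon
  obtain ⟨N, hN⟩ : ∃ N, N = s + (L.length - 1) * q := ⟨_, rfl⟩
  rw [← hN] at hlen
  have hL1 : 1 ≤ L.length := List.length_pos_iff.2 hL0
  have h1 : maximalIdeal R ^ N ≤ Ideal.span ((fun r : R => r ^ q) '' (maximalIdeal R : Set R)) := by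
    intro a ha
    apply hcon
    intro r hr
    have h2 : r ^ q * a ∈ maximalIdeal R ^ (s + L.length * q) := by
      have e1 : s + L.length * q = q + N := by
        rw [hN]
        obtain ⟨t, ht⟩ : ∃ t, L.length = t + 1 := ⟨L.length - 1, by omega⟩
        rw [ht, Nat.add_sub_cancel]
        ring
      rw [e1, pow_add]
      have e2 : r ^ q ∈ maximalIdeal R ^ q := Ideal.pow_mem_pow hr q
      exact Ideal.mul_mem_mul e2 ha
    obtain ⟨k, hk⟩ : ∃ k, k = L.length * q := ⟨_, rfl⟩
    have h8 := pig q L hL0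
    rw [← hk] at h2 h8
    have h9 : maximalIdeal R ^ (s + k) ≤ Ideal.ofList L ^ k * maximalIdeal R ^ s := red (Ideal.ofList L) s hs k
    have h10 : Ideal.ofList L ^ k * maximalIdeal R ^ s ≤ Ideal.ofList L ^ k := Ideal.mul_le_left
    exact (h9.trans (h10.trans h8)) h2
  have h2 : Ideal.span ((fun r : R => r ^ q) '' (maximalIdeal R : Set R)) ≤ Ideal.ofList (X.map (· ^ q)) := by
    refine Ideal.span_le.2 ?_
    rintro _ ⟨r, hr, rfl⟩
    exact hfrob r hr
  have h30 : ∀ y ∈ X.map (· ^ q), ∀ c ∈ maximalIdeal R ^ (N + j - q), c * y ∈ maximalIdeal R ^ (N + j) := by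
    intro y hy c hc'
    obtain ⟨x, hx, rfl⟩ := List.mem_map.1 hy
    have hxm : x ∈ maximalIdeal R := by rw [← hX]; exact Ideal.subset_span hx
    have e2 : x ^ q ∈ maximalIdeal R ^ q := Ideal.pow_mem_pow hxm q
    have h4 : c * x ^ q ∈ maximalIdeal R ^ (N + j - q + q) := by
      rw [pow_add]
      exact Ideal.mul_mem_mul hc' e2
    exact Ideal.pow_le_pow_right (by omega) h4
  have h3 := many (maximalIdeal R ^ (N + j - q)) (X.map (· ^ q)) (maximalIdeal R ^ (N + j)) h30
  rw [List.length_map] at h3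
  have h5 : maximalIdeal R ^ N ≤ maximalIdeal R ^ (N + j) ⊔ Ideal.ofList (X.map (· ^ q)) :=
    (h1.trans h2).trans le_sup_right
  have h6 : Module.length R (R ⧸ (maximalIdeal R ^ (N + j) ⊔ Ideal.ofList (X.map (· ^ q)))) ≤
      Module.length R (R ⧸ maximalIdeal R ^ N) := by
    refine Module.length_le_of_surjective (Ideal.Quotient.factorₐ R h5).toLinearMap ?_
    intro z
    obtain ⟨x, rfl⟩ := Ideal.Quotient.mk_surjective z
    exact ⟨Ideal.Quotient.mk _ x, rfl⟩
  have h7 := h3.trans (add_le_add h6 le_rfl)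
  exact absurd (lt_of_le_of_lt h7 ((add_comm _ _).trans_lt hlen)) (lt_irrefl _)

theorem elt [IsLocalRing R] (p e : ℕ) (hp : p.Prime) (hc : CharP R p) (L X : List R) (hX : Ideal.ofList X = maximalIdeal R)
    (hL0 : L ≠ []) (s j : ℕ) (hs : maximalIdeal R ^ (s + 1) ≤ Ideal.ofList L * maximalIdeal R ^ s)
    (hlen : X.length * Module.length R (R ⧸ maximalIdeal R ^ (s + (L.length - 1) * p ^ e + j - p ^ e)) +
        Module.length R (R ⧸ maximalIdeal R ^ (s + (L.length - 1) * p ^ e)) <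
      Module.length R (R ⧸ maximalIdeal R ^ (s + (L.length - 1) * p ^ e + j))) :
    ∃ a : R, (∀ r ∈ maximalIdeal R, r ^ p ^ e * a ∈ Ideal.ofList (L.map (· ^ p ^ e))) ∧
        a ∉ Ideal.span ((fun r : R => r ^ p ^ e) '' (maximalIdeal R : Set R)) :=
  eltq (p ^ e) L X hX (fun r hr => frob p e hp hc X (by rw [hX]; exact hr)) hL0 s j hs hlen

end Pool.Agent.H87.LD.Hil
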