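import Pool.Agent.H87.LD.Cmp

/-!
# The residue field as a direct summand of the Frobenius pushforward
-/

set_option autoImplicit false

namespace Pool.Agent.H87.LD

open IsLocalRing

universe u v w

variable {R : Type u} [CommRing R] [IsLocalRing R]

theorem exists_retract {M : Type v} [AddCommGroup M] [Module R M] (a : M)
    (h1 : ∀ r ∈ maximalIdeal R, r • a = 0) (h2 : a ∉ maximalIdeal R • (⊤ : Submodule R M)) :
    ∃ (u : (R ⧸ maximalIdeal R) →ₗ[R] M) (v : M →ₗ[R] (R ⧸ maximalIdeal R)), ∀ x, v (u x) = x := by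
  classical
  let _ : Field (R ⧸ maximalIdeal R) := Ideal.Quotient.field _
  set Q := M ⧸ (maximalIdeal R • (⊤ : Submodule R M)) with hQ
  let π : M →ₗ[R] Q := Submodule.mkQ _
  have ha : π a ≠ 0 := by
    intro h
    exact h2 ((Submodule.Quotient.mk_eq_zero _).1 h)
  obtain ⟨φ, hφ⟩ : ∃ φ : Q →ₗ[R ⧸ maximalIdeal R] (R ⧸ maximalIdeal R), φ (π a) ≠ 0 := by
    by_contra! h
    exact ha ((Module.forall_dual_apply_eq_zero_iff (R ⧸ maximalIdeal R) (π a)).1 h)
  let c : R ⧸ maximalIdeal R := φ (π a)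
  have hc : c ≠ 0 := hφ
  let φ' : Q →ₗ[R] (R ⧸ maximalIdeal R) := (c⁻¹ • φ).restrictScalars R
  let v : M →ₗ[R] (R ⧸ maximalIdeal R) := φ' ∘ₗ π
  have hv : v a = 1 := by
    show c⁻¹ • φ (π a) = 1
    rw [smul_eq_mul]
    exact inv_mul_cancel₀ hc
  let u : (R ⧸ maximalIdeal R) →ₗ[R] M :=
    Submodule.liftQ (maximalIdeal R) (LinearMap.toSpanSingleton R M a) (fun r hr => by
      rw [LinearMap.mem_ker, LinearMap.toSpanSingleton_apply]
      exact h1 r hr)
  refine ⟨u, v, fun x => ?_⟩
  obtain ⟨r, rfl⟩ := Submodule.mkQ_surjective _ x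
  have h3 : u (Submodule.mkQ (maximalIdeal R) r) = r • a := rfl
  rw [h3, map_smul, hv]
  show r • (1 : R ⧸ maximalIdeal R) = Ideal.Quotient.mk _ r
  rw [Algebra.smul_def, mul_one]
  rfl

/-- the ideal `𝔪^[q]` generated by the `q`-th powers of the elements of `𝔪` -/
def frobPow (R : Type u) [CommRing R] [IsLocalRing R] (q : ℕ) : Ideal R :=
  Ideal.span {x | ∃ r ∈ maximalIdeal R, x = r ^ q}

/-- an element of `R` as an element of `FrobMod R p e` -/
def toFrob (p e : ℕ) (x : R) : FrobMod R p e := x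

theorem frob_smul (p e : ℕ) [ExpChar R p] (r : R) (a : FrobMod R p e) :
    r • a = (r ^ p ^ e * (show R from a) : R) := by
  show (iterateFrobenius R p e r) * (show R from a) = _
  rw [iterateFrobenius_def]

theorem mem_frobPow (p e : ℕ) [ExpChar R p] (a : FrobMod R p e)
    (h : a ∈ maximalIdeal R • (⊤ : Submodule R (FrobMod R p e))) : (show R from a) ∈ frobPow R (p ^ e) := by
  refine Submodule.smul_induction_on (p := fun a : FrobMod R p e => (show R from a) ∈ frobPow R (p ^ e)) h ?_ ?_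
  · intro r hr n _
    show (show R from (r • n : FrobMod R p e)) ∈ frobPow R (p ^ e)
    rw [frob_smul]
    exact Ideal.mul_mem_right _ _ (Ideal.subset_span ⟨r, hr, rfl⟩)
  · intro x y hx hy
    exact Ideal.add_mem _ hx hy

theorem frob_retract (p e : ℕ) [ExpChar R p] (a : R) (h1 : ∀ r ∈ maximalIdeal R, r ^ p ^ e * a = 0)
    (h2 : a ∉ frobPow R (p ^ e)) :
    ∃ (u : (R ⧸ maximalIdeal R) →ₗ[R] FrobMod R p e) (v : FrobMod R p e →ₗ[R] (R ⧸ maximalIdeal R)),
      ∀ x, v (u x) = x := by
  refine exists_retract (M := FrobMod R p e) (show FrobMod R p e from a) (fun r hr => ?_) (fun h => h2 ?_)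
  · rw [frob_smul]
    exact h1 r hr
  · exact mem_frobPow p e _ h

/-- the converse -/
theorem retract_elt (p e : ℕ) [ExpChar R p] (u : (R ⧸ maximalIdeal R) →ₗ[R] FrobMod R p e)
    (v : FrobMod R p e →ₗ[R] (R ⧸ maximalIdeal R)) (huv : ∀ x, v (u x) = x) :
    ∃ a : R, (∀ r ∈ maximalIdeal R, r ^ p ^ e * a = 0) ∧ a ∉ frobPow R (p ^ e) := by
  refine ⟨(show R from u 1), fun r hr => ?_, fun h => ?_⟩
  · have h1 : (r • u 1 : FrobMod R p e) = 0 := by
      rw [← map_smul]
      have h2 : r • (1 : R ⧸ maximalIdeal R) = 0 := by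
        rw [Algebra.smul_def, mul_one]
        exact Ideal.Quotient.eq_zero_iff_mem.2 hr
      rw [h2, map_zero]
    rw [frob_smul] at h1
    exact h1
  · have h3 : ∀ x : R, x ∈ frobPow R (p ^ e) → ∀ c : R, v (toFrob p e (c * x)) = 0 := by
      intro x hx
      refine Submodule.span_induction (p := fun x _ => ∀ c : R, v (toFrob p e (c * x)) = 0) ?_ ?_ ?_ ?_ hx
      · rintro x ⟨r, hr, rfl⟩ c
        have h4 : toFrob p e (c * r ^ p ^ e) = r • toFrob p e c := by
          rw [frob_smul]
          exact mul_comm c (r ^ p ^ e)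
        have h5 : algebraMap R (R ⧸ maximalIdeal R) r = 0 := Ideal.Quotient.eq_zero_iff_mem.2 hr
        rw [h4, map_smul, Algebra.smul_def, h5, zero_mul]
      · intro c
        rw [mul_zero]
        exact map_zero v
      · intro x y _ _ h1 h2 c
        rw [mul_add]
        have h6 := map_add v (toFrob p e (c * x)) (toFrob p e (c * y))
        rw [h1, h2, add_zero] at h6
        exact h6
      · intro b x _ h1 c
        rw [smul_eq_mul, ← mul_assoc]
        exact h1 _
    have h7 := h3 _ h 1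
    rw [one_mul, show toFrob p e (show R from u 1) = u 1 from rfl, huv] at h7
    exact one_ne_zero h7

/-- Artinian rings of small Loewy length -/
theorem exists_elt (q : ℕ) (hq : 1 ≤ q) (hm : maximalIdeal R ^ (2 * q - 1) = ⊥) :
    ∃ a : R, (∀ r ∈ maximalIdeal R, r ^ q * a = 0) ∧ a ∉ frobPow R q := by
  have hle : frobPow R q ≤ maximalIdeal R ^ q := by
    refine Ideal.span_le.2 ?_
    rintro x ⟨r, hr, rfl⟩
    exact Ideal.pow_mem_pow hr q
  by_cases h : maximalIdeal R ^ (q - 1) ≤ frobPow R q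
  · have h1 : maximalIdeal R ^ (q - 1) ≤ maximalIdeal R ^ q := h.trans hle
    have h2 : ∀ j, maximalIdeal R ^ (q - 1) ≤ maximalIdeal R ^ (q - 1 + j) := by
      intro j
      induction j with
      | zero => exact le_rfl
      | succ j ih =>
        have h3 : maximalIdeal R ^ (q - 1 + j) ≤ maximalIdeal R ^ (q + j) := by
          rw [pow_add, pow_add]
          exact Ideal.mul_mono_left h1
        refine ih.trans (h3.trans ?_)
        have : q - 1 + (j + 1) = q + j := by omega
        rw [this]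
    have h4 : maximalIdeal R ^ (q - 1) = ⊥ := by
      have h5 := h2 q
      have h6 : q - 1 + q = 2 * q - 1 := by omega
      rw [h6, hm] at h5
      exact le_bot_iff.1 h5
    have h7 : maximalIdeal R ^ q = ⊥ := by
      have h8 : maximalIdeal R ^ q ≤ maximalIdeal R ^ (q - 1) := Ideal.pow_le_pow_right (Nat.sub_le _ _)
      rw [h4] at h8
      exact le_bot_iff.1 h8
    refine ⟨1, fun r hr => ?_, fun h9 => ?_⟩
    · have h10 := Ideal.pow_mem_pow hr q
      rw [h7] at h10
      rw [mul_one]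
      exact h10
    · have h11 := hle h9
      rw [h7] at h11
      exact one_ne_zero h11
  · obtain ⟨a, ha, ha'⟩ := Set.not_subset.1 h
    refine ⟨a, fun r hr => ?_, ha'⟩
    have h12 : r ^ q * a ∈ maximalIdeal R ^ (q + (q - 1)) := by
      rw [pow_add]
      exact Ideal.mul_mem_mul (Ideal.pow_mem_pow hr q) ha
    have h13 : q + (q - 1) = 2 * q - 1 := by omega
    rw [h13, hm] at h12
    exact h12

end Pool.Agent.H87.LD
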