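import Pool.Agent.H72.LD.Cone4

set_option autoImplicit false

/-!
# [H87 LD Typ] a numerical criterion: the type and the lengths of `R/(z^q)` and `R/m^[q]` (MP_2ee108_al)

For an ideal `I` with `A = R/I` of finite length, every submodule of `A` killed by `m` of length at most `r`:
`length A ≤ length (0 :_A N) + r length N` for every submodule `N` of `A`.
-/

namespace Pool.Agent.H87.LD.Typ

open IsLocalRing

variable {R : Type} [CommRing R]

/-- the annihilator of a submodule of `R ⧸ I` in `R ⧸ I` -/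
def an {I : Ideal R} (N : Submodule R (R ⧸ I)) : Submodule R (R ⧸ I) where
  carrier := {a | ∀ x ∈ N, a * x = 0}
  zero_mem' := fun x _ => zero_mul x
  add_mem' := fun {a b} ha hb x hx => by rw [add_mul, ha x hx, hb x hx, add_zero]
  smul_mem' := fun c a ha x hx => by rw [smul_mul_assoc, ha x hx, smul_zero]

theorem mem_an {I : Ideal R} {N : Submodule R (R ⧸ I)} {a : R ⧸ I} : a ∈ an N ↔ ∀ x ∈ N, a * x = 0 := Iff.rfl

theorem step [IsLocalRing R] {I : Ideal R} {r : ℕ}
    (hsoc : ∀ N : Submodule R (R ⧸ I), (∀ s ∈ maximalIdeal R, ∀ x ∈ N, s • x = 0) → Module.length R N ≤ r)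
    {N N0 : Submodule R (R ⧸ I)} (hlt : N0 < N) (hmax : ∀ N' : Submodule R (R ⧸ I), N' < N → ¬ N0 < N') :
    Module.length R (an N0) ≤ Module.length R (an N) + r ∧ Module.length R N0 + 1 ≤ Module.length R N := by
  obtain ⟨x, hxN, hx0⟩ := SetLike.exists_of_lt hlt
  have hsup : ∀ y ∈ N, y ∉ N0 → N0 ⊔ Submodule.span R {y} = N := by
    intro y hy hy0
    have h1 : N0 < N0 ⊔ Submodule.span R {y} := by
      refine lt_of_le_of_ne le_sup_left fun h => hy0 ?_
      rw [h]
      exact Submodule.mem_sup_right (Submodule.mem_span_singleton_self y)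
    have h2 : N0 ⊔ Submodule.span R {y} ≤ N :=
      sup_le hlt.le ((Submodule.span_singleton_le_iff_mem _ _).2 hy)
    exact le_antisymm h2 (not_lt_iff_le_imp_ge.1 (fun h => hmax _ h h1) h2)
  have hm : ∀ s ∈ maximalIdeal R, s • x ∈ N0 := by
    intro s hs
    by_contra h
    have h1 := hsup (s • x) (N.smul_mem s hxN) h
    have h2 : x ∈ N0 ⊔ Submodule.span R {s • x} := by rw [h1]; exact hxN
    obtain ⟨n0, hn0, w, hw, hsum⟩ := Submodule.mem_sup.1 h2
    obtain ⟨c, rfl⟩ := Submodule.mem_span_singleton.1 hw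
    have hu : IsUnit (1 - c * s) := by
      by_contra hnu
      have h3 : 1 - c * s ∈ maximalIdeal R := hnu
      have h4 : (1 : R) ∈ maximalIdeal R := by
        have := (maximalIdeal R).add_mem h3 ((maximalIdeal R).mul_mem_left c hs)
        rwa [sub_add_cancel] at this
      exact h4 isUnit_one
    obtain ⟨v, hv⟩ := hu
    have h5 : (1 - c * s) • x = n0 := by
      rw [sub_smul, one_smul, mul_smul]
      nth_rewrite 1 [← hsum]
      abel
    have h6 : x = (↑v⁻¹ : R) • n0 := by
      rw [← h5, ← hv, smul_smul, Units.inv_mul, one_smul]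
    exact hx0 (h6 ▸ N0.smul_mem _ hn0)
  constructor
  · -- the map `a ↦ a x`
    obtain ⟨φ, hφ⟩ : ∃ φ : an N0 →ₗ[R] (R ⧸ I), ∀ a, φ a = (a : R ⧸ I) * x :=
      ⟨(LinearMap.mulRight R x).comp (an N0).subtype, fun a => rfl⟩
    have hr : Module.length R (LinearMap.range φ) ≤ r := by
      apply hsoc
      rintro s hs _ ⟨a, rfl⟩
      rw [hφ, ← mul_smul_comm]
      exact a.2 _ (hm s hs)
    have hk : Module.length R (LinearMap.ker φ) ≤ Module.length R (an N) := by
      have h1 : ∀ a : LinearMap.ker φ, ((a : an N0) : R ⧸ I) ∈ an N := by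
        intro a y hy
        rw [← hsup x hxN hx0] at hy
        obtain ⟨n0, hn0, w, hw, rfl⟩ := Submodule.mem_sup.1 hy
        obtain ⟨c, rfl⟩ := Submodule.mem_span_singleton.1 hw
        have h2 : φ (a : an N0) = 0 := a.2
        rw [hφ] at h2
        rw [mul_add, (a : an N0).2 n0 hn0, mul_smul_comm, h2, smul_zero, add_zero]
      refine Module.length_le_of_injective
        (LinearMap.codRestrict (an N) ((an N0).subtype.comp (LinearMap.ker φ).subtype) h1) ?_
      intro a b hab
      have h3 := congrArg (fun t : an N => (t : R ⧸ I)) hab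
      exact Subtype.ext (Subtype.ext h3)
    have h4 : Module.length R (an N0) = Module.length R (LinearMap.ker φ) + Module.length R (LinearMap.range φ) :=
      Module.length_eq_add_of_exact (LinearMap.ker φ).subtype φ.rangeRestrict (Submodule.subtype_injective _)
        φ.surjective_rangeRestrict (by
          intro a
          rw [← LinearMap.mem_ker, LinearMap.ker_rangeRestrict]
          simp)
    rw [h4]
    exact add_le_add hk hr
  · obtain ⟨K, hK⟩ : ∃ K : Submodule R N, K = N0.comap N.subtype := ⟨_, rfl⟩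
    have h1 : Module.length R N = Module.length R K + Module.length R (N ⧸ K) :=
      Module.length_eq_add_of_exact K.subtype K.mkQ (Submodule.subtype_injective _) K.mkQ_surjective
        (by intro a; simp)
    have h2 : Module.length R N0 ≤ Module.length R K := by
      refine Module.length_le_of_injective (LinearMap.codRestrict K (Submodule.inclusion hlt.le) ?_) ?_
      · intro a
        rw [hK]
        exact a.2
      · intro a b hab
        have h3 := congrArg (fun t : K => ((t : N) : R ⧸ I)) hab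
        exact Subtype.ext h3
    have h3 : 1 ≤ Module.length R (N ⧸ K) := by
      have : Nontrivial (N ⧸ K) := by
        rw [Submodule.Quotient.nontrivial_iff]
        intro h
        have : (⟨x, hxN⟩ : N) ∈ K := by rw [h]; trivial
        rw [hK] at this
        exact hx0 this
      exact Order.one_le_iff_pos.2 Module.length_pos
    rw [h1]
    exact add_le_add h2 h3

theorem dual [IsLocalRing R] {I : Ideal R} {r : ℕ} (hfin : IsFiniteLength R (R ⧸ I))
    (hsoc : ∀ N : Submodule R (R ⧸ I), (∀ s ∈ maximalIdeal R, ∀ x ∈ N, s • x = 0) → Module.length R N ≤ r)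
    (N : Submodule R (R ⧸ I)) : Module.length R (R ⧸ I) ≤ Module.length R (an N) + r * Module.length R N := by
  obtain ⟨h1, h2⟩ := isFiniteLength_iff_isNoetherian_isArtinian.1 hfin
  have := h1
  have := h2
  induction N using WellFoundedLT.induction with
  | ind N ih =>
    by_cases hN : N = ⊥
    · subst hN
      refine le_trans ?_ le_self_add
      refine Module.length_le_of_injective (LinearMap.codRestrict (an ⊥) LinearMap.id ?_) ?_
      · intro a x hx
        rw [(Submodule.mem_bot R).1 hx, mul_zero]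
      · intro a b hab
        exact congrArg (fun t : an (⊥ : Submodule R (R ⧸ I)) => (t : R ⧸ I)) hab
    · obtain ⟨N0, h0, hmax⟩ := (wellFounded_gt : WellFounded ((· > ·) : Submodule R (R ⧸ I) → Submodule R (R ⧸ I) → Prop)).has_min
        {N' | N' < N} ⟨⊥, bot_lt_iff_ne_bot.2 hN⟩
      obtain ⟨s1, s2⟩ := step hsoc (N := N) (N0 := N0) h0 (fun N' h' h'' => hmax N' h' h'')
      have h3 := ih N0 h0
      calc Module.length R (R ⧸ I) ≤ Module.length R (an N0) + r * Module.length R N0 := h3
        _ ≤ (Module.length R (an N) + r) + r * Module.length R N0 := add_le_add s1 le_rfl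
        _ = Module.length R (an N) + r * (Module.length R N0 + 1) := by rw [mul_add, mul_one, add_assoc, add_comm (r : ℕ∞)]
        _ ≤ Module.length R (an N) + r * Module.length R N := add_le_add le_rfl (mul_le_mul_right s2 _)

theorem crit [IsLocalRing R] {I J : Ideal R} (hIJ : I ≤ J) {r : ℕ} (hfin : IsFiniteLength R (R ⧸ I))
    (hsoc : ∀ N : Submodule R (R ⧸ I), (∀ s ∈ maximalIdeal R, ∀ x ∈ N, s • x = 0) → Module.length R N ≤ r)
    (hlen : (r : ℕ∞) * Module.length R (R ⧸ I) < (r + 1) * Module.length R (R ⧸ J)) :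
    ∃ a : R, a ∉ J ∧ ∀ b ∈ J, b * a ∈ I := by
  by_contra hcon
  push Not at hcon
  obtain ⟨f, hf⟩ : ∃ f : R →ₗ[R] (R ⧸ I), ∀ x, f x = Ideal.Quotient.mk I x :=
    ⟨(Ideal.Quotient.mkₐ R I).toLinearMap, fun x => rfl⟩
  obtain ⟨g, hg⟩ : ∃ g : (R ⧸ I) →ₗ[R] (R ⧸ J), ∀ x, g (Ideal.Quotient.mk I x) = Ideal.Quotient.mk J x :=
    ⟨(Ideal.Quotient.factorₐ R hIJ).toLinearMap, fun x => rfl⟩
  obtain ⟨N, hN⟩ : ∃ N : Submodule R (R ⧸ I), N = Submodule.map f J := ⟨_, rfl⟩
  have hmem : ∀ x : R, Ideal.Quotient.mk I x ∈ N ↔ x ∈ J := by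
    intro x
    rw [hN, Submodule.mem_map]
    constructor
    · rintro ⟨y, hy, hyx⟩
      rw [hf, Ideal.Quotient.eq] at hyx
      have h1 := J.sub_mem hy (hIJ hyx)
      rwa [sub_sub_cancel] at h1
    · intro hx
      exact ⟨x, hx, hf x⟩
  have h1 : Module.length R (R ⧸ I) = Module.length R N + Module.length R (R ⧸ J) := by
    refine Module.length_eq_add_of_exact N.subtype g (Submodule.subtype_injective _) ?_ ?_
    · intro y
      obtain ⟨x, rfl⟩ := Ideal.Quotient.mk_surjective y
      exact ⟨Ideal.Quotient.mk I x, hg x⟩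
    · intro y
      obtain ⟨x, rfl⟩ := Ideal.Quotient.mk_surjective y
      rw [hg, Ideal.Quotient.eq_zero_iff_mem, ← hmem]
      constructor
      · intro h
        exact ⟨⟨_, h⟩, rfl⟩
      · rintro ⟨z, hz⟩
        rw [← hz]
        exact z.2
  have h2 : an N ≤ N := by
    intro y hy
    obtain ⟨x, rfl⟩ := Ideal.Quotient.mk_surjective y
    rw [hmem]
    by_contra hx
    obtain ⟨b, hb, hbx⟩ := hcon x hx
    apply hbx
    have h3 := hy (Ideal.Quotient.mk I b) ((hmem b).2 hb)
    rw [← map_mul, Ideal.Quotient.eq_zero_iff_mem, mul_comm] at h3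
    exact h3
  have h3 : Module.length R (an N) ≤ Module.length R N :=
    Module.length_le_of_injective (Submodule.inclusion h2) (Submodule.inclusion_injective h2)
  have h4 := dual hfin hsoc N
  have h5 : Module.length R (R ⧸ I) ≠ ⊤ := Module.length_ne_top_iff.2 hfin
  obtain ⟨c, hc⟩ : ∃ c : ℕ, Module.length R (R ⧸ I) = c := ⟨_, (ENat.natCast_toNat h5).symm⟩
  obtain ⟨n, hn⟩ : ∃ n : ℕ, Module.length R N = n := by
    refine ⟨_, (ENat.natCast_toNat ?_).symm⟩
    intro h
    rw [h, top_add] at h1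
    exact h5 h1
  obtain ⟨j, hj⟩ : ∃ j : ℕ, Module.length R (R ⧸ J) = j := by
    refine ⟨_, (ENat.natCast_toNat ?_).symm⟩
    intro h
    rw [h, add_top] at h1
    exact h5 h1
  have h6 : Module.length R (R ⧸ I) ≤ Module.length R N + r * Module.length R N := h4.trans (add_le_add h3 le_rfl)
  rw [hc, hn, hj] at h1
  rw [hc, hn] at h6
  rw [hc, hj] at hlen
  norm_cast at h1 h6 hlen
  nlinarith

/-- the numerical criterion gives an element as in clause (1) of RegularSequences -/
theorem elt [IsLocalRing R] (p e : ℕ) (L : List R) (hL : ∀ z ∈ L, z ∈ maximalIdeal R) (r : ℕ)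
    (hfin : IsFiniteLength R (R ⧸ Ideal.ofList (L.map (· ^ p ^ e))))
    (hsoc : ∀ N : Submodule R (R ⧸ Ideal.ofList (L.map (· ^ p ^ e))),
      (∀ s ∈ maximalIdeal R, ∀ x ∈ N, s • x = 0) → Module.length R N ≤ r)
    (hlen : (r : ℕ∞) * Module.length R (R ⧸ Ideal.ofList (L.map (· ^ p ^ e))) <
      (r + 1) * Module.length R (R ⧸ Ideal.span ((fun r : R => r ^ p ^ e) '' (maximalIdeal R : Set R)))) :
    ∃ a : R, (∀ r ∈ maximalIdeal R, r ^ p ^ e * a ∈ Ideal.ofList (L.map (· ^ p ^ e))) ∧
        a ∉ Ideal.span ((fun r : R => r ^ p ^ e) '' (maximalIdeal R : Set R)) := by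
  have hIJ : Ideal.ofList (L.map (· ^ p ^ e)) ≤ Ideal.span ((fun r : R => r ^ p ^ e) '' (maximalIdeal R : Set R)) := by
    refine Ideal.span_le.2 ?_
    intro y hy
    obtain ⟨z, hz, rfl⟩ := List.mem_map.1 hy
    exact Ideal.subset_span ⟨z, hL z hz, rfl⟩
  obtain ⟨a, ha, hb⟩ := crit hIJ hfin hsoc hlen
  exact ⟨a, fun s hs => hb _ (Ideal.subset_span ⟨s, hs, rfl⟩), ha⟩

end Pool.Agent.H87.LD.Typ
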